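import Pool.Agent.LibLP64.Defs

/-! LP64 A1 (SHORT/MEDIUM). Basics of `u`. The set `sizes T L` contains `0` (the empty set) if `0 ≤ L` (for all `L`
indeed) and is bounded above by `L` (`measureReal_mono` and `Real.volume_real_Icc_of_le`).
`le_u`: inner regularity: `MeasurableSet.measure_eq_iSup_isCompact` or
`MeasurableSet.exists_lt_isCompact_of_ne_top`; translate the compact set by `-c` (`measure_preimage_add_right`,
`IsCompact.image`; `Ind` is translation invariant). `u_add`: cut a compact independent `A` in `[0, L + L']` at `L`. -/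

open MeasureTheory Set

namespace Pool.Agent.LibLP64

theorem Ind.mono {T A B : Set ℝ} (h : Ind T A) (hB : B ⊆ A) : Ind T B :=
  fun a ha b hb hab => h a (hB ha) b (hB hb) hab

private theorem A1_ne_top {a b : ℝ} : volume (Icc a b) ≠ ⊤ := by
  rw [Real.volume_Icc]
  exact ENNReal.ofReal_ne_top

private theorem A1_zero_mem (T : Set ℝ) (L : ℝ) : (0 : ℝ) ∈ sizes T L := by
  refine ⟨∅, isCompact_empty, empty_subset _, ?_, ?_⟩
  · intro a ha
    exact absurd ha (notMem_empty a)
  · simp

private theorem A1_bdd (T : Set ℝ) (L : ℝ) (hL : 0 ≤ L) : ∀ m ∈ sizes T L, m ≤ L := by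
  rintro m ⟨A, _, hA, _, rfl⟩
  have h1 : volume.real A ≤ volume.real (Icc 0 L) := measureReal_mono hA A1_ne_top
  rw [Real.volume_real_Icc_of_le hL, sub_zero] at h1
  exact h1

private theorem A1_bddAbove (T : Set ℝ) (L : ℝ) (hL : 0 ≤ L) : BddAbove (sizes T L) :=
  ⟨L, fun m hm => A1_bdd T L hL m hm⟩

theorem u_nonneg (T : Set ℝ) (L : ℝ) : 0 ≤ u T L := by
  apply Real.sSup_nonneg
  rintro m ⟨A, _, _, _, rfl⟩
  exact measureReal_nonneg

theorem u_le (T : Set ℝ) (L : ℝ) (hL : 0 ≤ L) : u T L ≤ L :=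
  Real.sSup_le (A1_bdd T L hL) hL

/-- every measurable independent subset of an interval of length `L` has measure at most `u T L` -/
theorem le_u (T : Set ℝ) (L c : ℝ) (hL : 0 ≤ L) (A : Set ℝ) (hm : MeasurableSet A) (hA : A ⊆ Icc c (c + L))
    (hI : Ind T A) : volume.real A ≤ u T L := by
  have htop : volume A ≠ ⊤ := ne_top_of_le_ne_top A1_ne_top (measure_mono hA)
  apply le_of_forall_pos_le_add
  intro ε hε
  obtain ⟨K, hKA, hK, hlt⟩ := hm.exists_isCompact_lt_add htop (ε := ENNReal.ofReal ε)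
    (by rw [Ne, ENNReal.ofReal_eq_zero, not_le]; exact hε)
  have hKtop : volume K ≠ ⊤ := ne_top_of_le_ne_top htop (measure_mono hKA)
  have h1 : volume.real A ≤ volume.real K + ε := by
    have h2 : volume.real A ≤ (volume K + ENNReal.ofReal ε).toReal :=
      ENNReal.toReal_mono (ENNReal.add_ne_top.2 ⟨hKtop, ENNReal.ofReal_ne_top⟩) hlt.le
    rw [ENNReal.toReal_add hKtop ENNReal.ofReal_ne_top, ENNReal.toReal_ofReal hε.le] at h2
    exact h2
  have hmp : MeasurePreserving (fun x : ℝ => x + c) volume volume :=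
    measurePreserving_add_right volume c
  have hKm : NullMeasurableSet K volume := hK.isClosed.measurableSet.nullMeasurableSet
  have hpre : volume ((fun x : ℝ => x + c) ⁻¹' K) = volume K := hmp.measure_preimage hKm
  have hK' : IsCompact ((fun x : ℝ => x + c) ⁻¹' K) :=
    (Homeomorph.addRight c).isClosedEmbedding.isCompact_preimage hK
  have h3 : volume.real K ≤ u T L := by
    apply le_csSup (A1_bddAbove T L hL)
    refine ⟨(fun x : ℝ => x + c) ⁻¹' K, hK', ?_, ?_, ?_⟩
    · intro x hx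
      have h4 := hA (hKA hx)
      have h5 : c ≤ x + c := h4.1
      have h6 : x + c ≤ c + L := h4.2
      exact ⟨by linarith, by linarith⟩
    · intro a ha b hb hab
      have h4 := hI (a + c) (hKA ha) (b + c) (hKA hb) (by linarith)
      have e : b + c - (a + c) = b - a := by ring
      rwa [e] at h4
    · unfold Measure.real
      rw [hpre]
  linarith

/-- near-optimal compact sets -/
theorem exists_near (T : Set ℝ) (L η : ℝ) (hL : 0 ≤ L) (hη : 0 < η) :
    ∃ A : Set ℝ, IsCompact A ∧ A ⊆ Icc 0 L ∧ Ind T A ∧ u T L - η ≤ volume.real A := by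
  obtain ⟨m, ⟨A, h1, h2, h3, rfl⟩, h5⟩ := exists_lt_of_lt_csSup (s := sizes T L) (b := u T L - η)
    ⟨0, A1_zero_mem T L⟩ (by unfold u; linarith)
  exact ⟨A, h1, h2, h3, h5.le⟩

theorem u_mono (T : Set ℝ) (L L' : ℝ) (hL : 0 ≤ L) (h : L ≤ L') : u T L ≤ u T L' := by
  apply csSup_le_csSup (A1_bddAbove T L' (hL.trans h)) ⟨0, A1_zero_mem T L⟩
  rintro m ⟨A, h1, h2, h3, rfl⟩
  exact ⟨A, h1, h2.trans (Icc_subset_Icc le_rfl h), h3, rfl⟩

theorem u_add (T : Set ℝ) (L L' : ℝ) (hL : 0 ≤ L) (hL' : 0 ≤ L') : u T (L + L') ≤ u T L + u T L' := by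
  apply csSup_le ⟨0, A1_zero_mem T (L + L')⟩
  rintro m ⟨A, h1, h2, h3, rfl⟩
  have hAm : MeasurableSet A := h1.isClosed.measurableSet
  have e : A = (A ∩ Icc 0 (0 + L)) ∪ (A ∩ Icc L (L + L')) := by
    ext x
    constructor
    · intro hx
      obtain ⟨h4, h5⟩ := h2 hx
      rcases le_total x L with h6 | h6
      · exact Or.inl ⟨hx, h4, by linarith⟩
      · exact Or.inr ⟨hx, h6, h5⟩
    · rintro (hx | hx)
      · exact hx.1
      · exact hx.1
  have h4 : volume.real A ≤ volume.real (A ∩ Icc 0 (0 + L)) + volume.real (A ∩ Icc L (L + L')) := by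
    conv_lhs => rw [e]
    exact measureReal_union_le _ _
  have h5 := le_u T L 0 hL (A ∩ Icc 0 (0 + L)) (hAm.inter measurableSet_Icc) inter_subset_right
    (h3.mono inter_subset_left)
  have h6 := le_u T L' L hL' (A ∩ Icc L (L + L')) (hAm.inter measurableSet_Icc) inter_subset_right
    (h3.mono inter_subset_left)
  linarith

end Pool.Agent.LibLP64
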