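import Pool.Agent.LibLP64.A1

/-! LP64 A2 (SHORT/MEDIUM). Fekete: `α := ⨅ over L ≥ 1 of u T L / L` or the infimum over all `L > 0`
(`sInf ((fun L => u T L / L) '' Ioi 0)`). Given `η`, pick `L₁ > 0` with `u T L₁ ≤ (α + η/2) L₁`; for `L = q L₁ + r`,
`0 ≤ r < L₁` (`q = ⌊L / L₁⌋₊`): `u T L ≤ q u T L₁ + r ≤ (α + η/2) L + L₁ ≤ (α + η) L` if `L ≥ 2 L₁ / η` (induction on `q`
with `u_add`, `u_le`). -/

open MeasureTheory Set

namespace Pool.Agent.LibLP64

theorem u_nsmul (T : Set ℝ) (L r : ℝ) (hL : 0 ≤ L) (hr : 0 ≤ r) (q : ℕ) : u T (q * L + r) ≤ q * u T L + r := by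
  induction q with
  | zero =>
    simpa using u_le T r hr
  | succ q ih =>
    have e : ((q + 1 : ℕ) : ℝ) * L + r = L + (q * L + r) := by
      push_cast
      ring
    rw [e]
    have h0 : 0 ≤ (q : ℝ) * L + r := by positivity
    have h1 := u_add T L (q * L + r) hL h0
    push_cast
    linarith

theorem exists_opt (T : Set ℝ) : ∃ α, IsOpt T α := by
  set S : Set ℝ := (fun L => u T L / L) '' Ioi (0 : ℝ) with hS
  have hpos : ∀ x ∈ S, 0 ≤ x := by
    rintro x ⟨L, hL, rfl⟩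
    exact div_nonneg (u_nonneg T L) (le_of_lt hL)
  have hbdd : BddBelow S := ⟨0, hpos⟩
  have hne : S.Nonempty := ⟨_, 1, by norm_num, rfl⟩
  have hα0 : 0 ≤ sInf S := Real.sInf_nonneg hpos
  refine ⟨sInf S, hα0, ?_, ?_⟩
  · intro L hL
    have h1 : sInf S ≤ u T L / L := csInf_le hbdd ⟨L, hL, rfl⟩
    exact (le_div_iff₀ hL).1 h1
  · intro η hη
    obtain ⟨_, ⟨L₁, hL₁, rfl⟩, h1⟩ := exists_lt_of_csInf_lt hne
      (show sInf S < sInf S + η / 2 by linarith)
    have hL₁' : 0 < L₁ := hL₁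
    have h2 : u T L₁ ≤ (sInf S + η / 2) * L₁ := ((div_lt_iff₀ hL₁').1 h1).le
    refine ⟨2 * L₁ / η, by positivity, ?_⟩
    intro L hL
    have hLpos : 0 < L := lt_of_lt_of_le (by positivity) hL
    have h3 : L₁ ≤ η / 2 * L := by
      have h4 : 2 * L₁ / η * η ≤ L * η := mul_le_mul_of_nonneg_right hL hη.le
      rw [div_mul_cancel₀ _ hη.ne'] at h4
      linarith
    set q : ℕ := ⌊L / L₁⌋₊ with hq
    have hq1 : (q : ℝ) * L₁ ≤ L := by
      have := Nat.floor_le (div_nonneg hLpos.le hL₁'.le)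
      rw [← hq, le_div_iff₀ hL₁'] at this
      exact this
    have hq2 : L < ((q : ℝ) + 1) * L₁ := by
      have := Nat.lt_floor_add_one (L / L₁)
      rw [← hq, div_lt_iff₀ hL₁'] at this
      exact this
    have h5 := u_nsmul T L₁ (L - q * L₁) hL₁'.le (by linarith) q
    have e : (q : ℝ) * L₁ + (L - q * L₁) = L := by ring
    rw [e] at h5
    have h6 : (q : ℝ) * u T L₁ ≤ (sInf S + η / 2) * L := by
      calc (q : ℝ) * u T L₁ ≤ q * ((sInf S + η / 2) * L₁) :=
            mul_le_mul_of_nonneg_left h2 (Nat.cast_nonneg q)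
        _ = (sInf S + η / 2) * (q * L₁) := by ring
        _ ≤ (sInf S + η / 2) * L := mul_le_mul_of_nonneg_left hq1 (by linarith)
    have h7 : L - q * L₁ ≤ L₁ := by linarith
    calc u T L ≤ q * u T L₁ + (L - q * L₁) := h5
      _ ≤ (sInf S + η / 2) * L + η / 2 * L := by linarith
      _ = (sInf S + η) * L := by ring

end Pool.Agent.LibLP64
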