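import Mathlib

/-! LibLP64: closed sets of reals with property P4 (any four reals have a difference in the set) have
density at least 1/2 in all long windows (helper64). -/

open MeasureTheory Set

namespace Pool.Agent.LibLP64

/-- `A` is independent: all positive differences of `A` lie in `T`. -/
def Ind (T A : Set ℝ) : Prop := ∀ a ∈ A, ∀ b ∈ A, a < b → b - a ∈ T

/-- the sizes of the compact independent sets inside `[0, L]` -/
def sizes (T : Set ℝ) (L : ℝ) : Set ℝ :=
  {m | ∃ A : Set ℝ, IsCompact A ∧ A ⊆ Icc 0 L ∧ Ind T A ∧ m = volume.real A}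

/-- the largest size of a compact independent set inside `[0, L]` -/
noncomputable def u (T : Set ℝ) (L : ℝ) : ℝ := sSup (sizes T L)

/-- `A + [0, κ]` -/
def fat (A : Set ℝ) (κ : ℝ) : Set ℝ := {x | ∃ a ∈ A, a ≤ x ∧ x ≤ a + κ}

/-- `α` is the optimal density of independent sets -/
def IsOpt (T : Set ℝ) (α : ℝ) : Prop :=
  0 ≤ α ∧ (∀ L : ℝ, 0 < L → α * L ≤ u T L) ∧
    ∀ η : ℝ, 0 < η → ∃ L₀ : ℝ, 0 < L₀ ∧ ∀ L : ℝ, L₀ ≤ L → u T L ≤ (α + η) * L

/-- among any four reals two have their difference in `T` -/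
def P4 (T : Set ℝ) : Prop := ∀ t : Fin 4 → ℝ, StrictMono t → ∃ i j, i < j ∧ t j - t i ∈ T

end Pool.Agent.LibLP64
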