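import Pool.Agent.LibLP64.A1

/-! LP64 F1 (MEDIUM). Compactness. Suppose the statement fails for `L, η`: for each `n` there is a compact independent
`A n ⊆ [0, L]` with `u T L + η < volume.real (fat (A n) (1 / (n + 1)))`. Let `𝒰 = hyperfilter ℕ` (an ultrafilter `≤ atTop`)
and `K = {x | ∀ ε > 0, ∀ᶠ n in 𝒰, ∃ a ∈ A n, |a - x| < ε}`. `K` is closed, inside `[0, L]` (so compact), independent
(`T` is closed: for `x < y` in `K` and every `ε` there are `n` and `a, b ∈ A n` close to `x, y` with `a < b`, so `b - a ∈ T` is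
within `2 ε` of `y - x`). For every `ε > 0`: `∀ᶠ n in 𝒰, A n ⊆ cthickening ε K` (otherwise points `a n ∈ A n` at distance
`≥ ε` from `K` for `𝒰`-many `n`, the `𝒰`-limit of `a n` in the compact `[0, L]` (`IsCompact.ultrafilter_le_nhds`) is in `K`).
Hence `fat (A n) (1/(n+1)) ⊆ cthickening (2 ε) K` eventually, while `volume (cthickening δ K) → volume K` as `δ → 0`
(`tendsto_measure_cthickening_of_isCompact`), and `volume.real K ≤ u T L`. Contradiction.
(If the `A n` are empty for `𝒰`-many `n`, then `fat = ∅`, trivial.) -/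

open MeasureTheory Set

namespace Pool.Agent.LibLP64

/-- the limit set along an ultrafilter -/
private def limK (U : Ultrafilter ℕ) (A : ℕ → Set ℝ) : Set ℝ :=
  {x | ∀ ε : ℝ, 0 < ε → ∀ᶠ n in (U : Filter ℕ), ∃ a ∈ A n, |a - x| < ε}

private theorem limK_closed (U : Ultrafilter ℕ) (A : ℕ → Set ℝ) : IsClosed (limK U A) := by
  apply isClosed_of_closure_subset
  intro x hx ε hε
  obtain ⟨y, hy, hxy⟩ := Metric.mem_closure_iff.1 hx (ε / 2) (by linarith)
  filter_upwards [hy (ε / 2) (by linarith)] with n hn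
  obtain ⟨a, ha, hay⟩ := hn
  refine ⟨a, ha, ?_⟩
  rw [Real.dist_eq, abs_lt] at hxy
  rw [abs_lt] at hay ⊢
  constructor <;> linarith [hxy.1, hxy.2, hay.1, hay.2]

private theorem limK_sub (U : Ultrafilter ℕ) (A : ℕ → Set ℝ) (L : ℝ) (hA : ∀ n, A n ⊆ Icc 0 L) :
    limK U A ⊆ Icc 0 L := by
  intro x hx
  have key : ∀ ε : ℝ, 0 < ε → -ε ≤ x ∧ x ≤ L + ε := by
    intro ε hε
    obtain ⟨n, a, ha, hax⟩ := (hx ε hε).exists
    have h1 := hA n ha
    rw [abs_lt] at hax
    constructor <;> linarith [h1.1, h1.2, hax.1, hax.2]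
  constructor
  · apply le_of_forall_pos_le_add
    intro ε hε
    linarith [(key ε hε).1]
  · apply le_of_forall_pos_le_add
    intro ε hε
    linarith [(key ε hε).2]

private theorem limK_ind (U : Ultrafilter ℕ) (A : ℕ → Set ℝ) (T : Set ℝ) (hT : IsClosed T)
    (hA : ∀ n, Ind T (A n)) : Ind T (limK U A) := by
  intro x hx y hy hxy
  rw [← hT.closure_eq, Metric.mem_closure_iff]
  intro ε hε
  have hδ : 0 < min (ε / 2) ((y - x) / 2) := lt_min (by linarith) (by linarith)
  obtain ⟨n, hn1, hn2⟩ := ((hx _ hδ).and (hy _ hδ)).exists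
  obtain ⟨a, ha, hax⟩ := hn1
  obtain ⟨b, hb, hby⟩ := hn2
  have h1 := min_le_left (ε / 2) ((y - x) / 2)
  have h2 := min_le_right (ε / 2) ((y - x) / 2)
  rw [abs_lt] at hax hby
  have hab : a < b := by linarith [hax.1, hax.2, hby.1, hby.2]
  refine ⟨b - a, hA n a ha b hb hab, ?_⟩
  rw [Real.dist_eq, abs_lt]
  constructor <;> linarith [hax.1, hax.2, hby.1, hby.2]

private theorem limK_thick (U : Ultrafilter ℕ) (A : ℕ → Set ℝ) (L : ℝ) (hL : 0 ≤ L)
    (hA : ∀ n, A n ⊆ Icc 0 L) (ε : ℝ) (hε : 0 < ε) :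
    ∀ᶠ n in (U : Filter ℕ), A n ⊆ Metric.cthickening ε (limK U A) := by
  classical
  by_contra hcon
  rw [← Ultrafilter.eventually_not] at hcon
  let a : ℕ → ℝ := fun n => if h : ∃ x ∈ A n, x ∉ Metric.cthickening ε (limK U A) then h.choose
    else 0
  have haI : ∀ n, a n ∈ Icc 0 L := by
    intro n
    by_cases h : ∃ x ∈ A n, x ∉ Metric.cthickening ε (limK U A)
    · have h1 := h.choose_spec
      have : a n = h.choose := by
        simp only [a]
        rw [dif_pos h]
      rw [this]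
      exact hA n h1.1
    · have : a n = 0 := by
        simp only [a]
        rw [dif_neg h]
      rw [this]
      exact ⟨le_refl _, hL⟩
  have hsp : ∀ᶠ n in (U : Filter ℕ), a n ∈ A n ∧ a n ∉ Metric.cthickening ε (limK U A) := by
    filter_upwards [hcon] with n hn
    have h : ∃ x ∈ A n, x ∉ Metric.cthickening ε (limK U A) := by
      rw [Set.not_subset] at hn
      exact hn
    have : a n = h.choose := by
      simp only [a]
      rw [dif_pos h]
    rw [this]
    exact h.choose_spec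
  obtain ⟨x, _, hx⟩ := (isCompact_Icc (a := (0 : ℝ)) (b := L)).ultrafilter_le_nhds (U.map a)
    (by
      rw [Filter.le_principal_iff]
      exact Filter.mem_map.2 (Filter.univ_mem' haI))
  have hx2 : Filter.Tendsto a (U : Filter ℕ) (nhds x) := hx
  have hxK : x ∈ limK U A := by
    intro δ hδ
    have := (Metric.tendsto_nhds.1 hx2) δ hδ
    filter_upwards [this, hsp] with n h1 h2
    exact ⟨a n, h2.1, by rwa [Real.dist_eq] at h1⟩
  have h3 := (Metric.tendsto_nhds.1 hx2) ε hε
  obtain ⟨n, h1, h2⟩ := (h3.and hsp).exists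
  exact h2.2 (Metric.mem_cthickening_of_dist_le _ _ _ _ hxK h1.le)

theorem fat_local (T : Set ℝ) (hT : IsClosed T) (L η : ℝ) (hL : 0 ≤ L) (hη : 0 < η) :
    ∃ κ : ℝ, 0 < κ ∧ ∀ A : Set ℝ, IsCompact A → A ⊆ Icc 0 L → Ind T A →
      volume.real (fat A κ) ≤ u T L + η := by
  by_contra hcon
  push Not at hcon
  have hn : ∀ n : ℕ, ∃ A : Set ℝ, IsCompact A ∧ A ⊆ Icc 0 L ∧ Ind T A ∧
      u T L + η < volume.real (fat A (1 / ((n : ℝ) + 1))) := by
    intro n
    exact hcon _ Nat.one_div_pos_of_nat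
  choose A hAc hAI hAT hAv using hn
  let U : Ultrafilter ℕ := Filter.hyperfilter ℕ
  have hUT : (U : Filter ℕ) ≤ Filter.atTop := Nat.hyperfilter_le_atTop
  have hK1 := limK_closed U A
  have hK2 := limK_sub U A L hAI
  have hK3 := limK_ind U A T hT hAT
  have hKc : IsCompact (limK U A) := isCompact_Icc.of_isClosed_subset hK1 hK2
  have hKv : volume.real (limK U A) ≤ u T L := by
    apply le_u T L 0 hL _ hK1.measurableSet _ hK3
    simpa using hK2
  have hu := u_nonneg T L
  have hlt : volume (limK U A) < ENNReal.ofReal (u T L + η) := by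
    rw [← ENNReal.ofReal_toReal (hKc.measure_lt_top (μ := volume)).ne]
    rw [ENNReal.ofReal_lt_ofReal_iff (by linarith)]
    have : (volume (limK U A)).toReal = volume.real (limK U A) := rfl
    linarith
  have hev := (tendsto_measure_cthickening_of_isCompact (μ := volume) hKc).eventually
    (gt_mem_nhds hlt)
  have hev2 : ∀ᶠ r in nhdsWithin (0 : ℝ) (Ioi 0),
      volume (Metric.cthickening r (limK U A)) < ENNReal.ofReal (u T L + η) :=
    hev.filter_mono nhdsWithin_le_nhds
  obtain ⟨r, hr1, hr2⟩ := (hev2.and self_mem_nhdsWithin).exists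
  have hr0 : 0 < r := hr2
  have h4 := limK_thick U A L hL hAI (r / 2) (by linarith)
  have h5 : ∀ᶠ n : ℕ in (U : Filter ℕ), 1 / ((n : ℝ) + 1) < r / 2 := by
    apply hUT
    exact (tendsto_one_div_add_atTop_nhds_zero_nat (𝕜 := ℝ)).eventually
      (gt_mem_nhds (show (0 : ℝ) < r / 2 by linarith))
  obtain ⟨n, hn1, hn2⟩ := (h4.and h5).exists
  have hsub : fat (A n) (1 / ((n : ℝ) + 1)) ⊆ Metric.cthickening r (limK U A) := by
    rintro x ⟨a, ha, h1, h2⟩
    have h6 : x ∈ Metric.cthickening (r / 2) (Metric.cthickening (r / 2) (limK U A)) := by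
      apply Metric.mem_cthickening_of_dist_le x a _ _ (hn1 ha)
      rw [Real.dist_eq, abs_le]
      constructor <;> linarith
    have h7 := Metric.cthickening_cthickening_subset (by linarith : 0 ≤ r / 2)
      (by linarith : 0 ≤ r / 2) (limK U A) h6
    rwa [add_halves] at h7
  have h8 : volume (fat (A n) (1 / ((n : ℝ) + 1))) < ENNReal.ofReal (u T L + η) :=
    lt_of_le_of_lt (measure_mono hsub) hr1
  have h9 : volume.real (fat (A n) (1 / ((n : ℝ) + 1))) ≤ u T L + η := by
    apply ENNReal.toReal_le_of_le_ofReal (by linarith) h8.le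
  linarith [hAv n]

end Pool.Agent.LibLP64
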