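import Pool.Agent.LibLP64.A2
import Pool.Agent.LibLP64.F1

/-! LP64 F2 (MEDIUM). Tiling. Choose `L₁ ≥ 1` with `u T (L₁ + 1) ≤ (α + η/8) (L₁ + 1)` and `(α + η/8)(L₁+1) + η/8 ≤ (α + η/2) L₁`
(note `α ≤ 1` because `α L ≤ u T L ≤ L`), `κ ≤ 1` from `fat_local` for the length `L₁ + 1` and `η/8`. For a block
`[q, q + L₁]`: `fat A κ ∩ [q, q + L₁] ⊆ fat (A ∩ [q - 1, q + L₁]) κ`, and `A ∩ [q - 1, q + L₁]` is (after translation)
compact independent in `[0, L₁ + 1]`, so the measure is `≤ (α + η/2) L₁`. Cover `[c, c + M]` by `⌊M / L₁⌋₊ + 1` blocks. -/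

open MeasureTheory Set

namespace Pool.Agent.LibLP64

private theorem F2_fin (S : Set ℝ) (c d : ℝ) : volume (S ∩ Icc c d) ≠ ⊤ :=
  ((measure_mono inter_subset_right).trans_lt measure_Icc_lt_top).ne

private theorem F2_tile (S : Set ℝ) (L₁ B : ℝ) (hL : 0 ≤ L₁)
    (h : ∀ q, volume.real (S ∩ Icc q (q + L₁)) ≤ B) (N : ℕ) (c : ℝ) :
    volume.real (S ∩ Icc c (c + N * L₁)) ≤ N * B := by
  induction N with
  | zero =>
    have h1 : volume.real (S ∩ Icc c (c + ((0 : ℕ) : ℝ) * L₁)) ≤ volume.real (Icc c c) := by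
      refine measureReal_mono ?_ measure_Icc_lt_top.ne
      intro x hx
      have h2 := hx.2.2
      rw [Nat.cast_zero, zero_mul, add_zero] at h2
      exact ⟨hx.2.1, h2⟩
    rw [Real.volume_real_Icc_of_le le_rfl, sub_self] at h1
    simpa using h1
  | succ N ih =>
    have h1 : S ∩ Icc c (c + ((N + 1 : ℕ) : ℝ) * L₁) ⊆
        (S ∩ Icc c (c + N * L₁)) ∪ (S ∩ Icc (c + N * L₁) (c + N * L₁ + L₁)) := by
      rintro x ⟨hx, h2, h3⟩
      have h4 : c + ((N + 1 : ℕ) : ℝ) * L₁ = c + N * L₁ + L₁ := by push_cast; ring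
      rw [h4] at h3
      rcases le_total x (c + N * L₁) with h5 | h5
      · exact Or.inl ⟨hx, h2, h5⟩
      · exact Or.inr ⟨hx, h5, h3⟩
    have h2 := measureReal_mono h1
      (ne_top_of_le_ne_top (ENNReal.add_ne_top.2 ⟨F2_fin S _ _, F2_fin S _ _⟩)
        (measure_union_le (μ := volume) _ _))
    have h3 := measureReal_union_le (μ := volume) (S ∩ Icc c (c + N * L₁))
      (S ∩ Icc (c + N * L₁) (c + N * L₁ + L₁))
    have h4 := h (c + N * L₁)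
    have h5 : ((N + 1 : ℕ) : ℝ) * B = N * B + B := by push_cast; ring
    rw [h5]
    linarith

private theorem F2_block {T : Set ℝ} {L₁ κ₁ B : ℝ}
    (h : ∀ A : Set ℝ, IsCompact A → A ⊆ Icc 0 (L₁ + 1) → Ind T A → volume.real (fat A κ₁) ≤ B)
    {κ : ℝ} (hκ : κ ≤ κ₁) (hκ1 : κ ≤ 1) {A : Set ℝ} (hA : IsCompact A) (hI : Ind T A) (q : ℝ) :
    volume.real (fat A κ ∩ Icc q (q + L₁)) ≤ B := by
  have hsub : fat A κ ∩ Icc q (q + L₁) ⊆ fat (A ∩ Icc (q - 1) (q + L₁)) κ₁ := by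
    rintro x ⟨⟨a, ha, h1, h2⟩, h3, h4⟩
    exact ⟨a, ⟨ha, by linarith, by linarith⟩, h1, by linarith⟩
  have htr : fat (A ∩ Icc (q - 1) (q + L₁)) κ₁ = (fun x => x + -(q - 1)) ⁻¹'
      fat ((fun x => x - (q - 1)) '' (A ∩ Icc (q - 1) (q + L₁))) κ₁ := by
    ext x
    simp only [fat, mem_ofPred_eq, mem_preimage, exists_mem_image]
    refine exists_congr fun a => and_congr_right fun _ => ?_
    constructor
    · rintro ⟨h1, h2⟩
      exact ⟨by linarith, by linarith⟩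
    · rintro ⟨h1, h2⟩
      exact ⟨by linarith, by linarith⟩
  have hfin : volume (fat (A ∩ Icc (q - 1) (q + L₁)) κ₁) ≠ ⊤ := by
    have h1 : fat (A ∩ Icc (q - 1) (q + L₁)) κ₁ ⊆ Icc (q - 1) (q + L₁ + κ₁) := by
      rintro x ⟨a, ⟨_, h1, h2⟩, h3, h4⟩
      exact ⟨by linarith, by linarith⟩
    exact ((measure_mono h1).trans_lt measure_Icc_lt_top).ne
  refine (measureReal_mono hsub hfin).trans ?_
  rw [htr, measureReal_def, measure_preimage_add_right, ← measureReal_def]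
  refine h _ ((hA.inter_right isClosed_Icc).image (by fun_prop)) ?_ ?_
  · rintro _ ⟨a, ⟨_, h1, h2⟩, rfl⟩
    exact ⟨by simp only; linarith, by simp only; linarith⟩
  · rintro _ ⟨a, ⟨ha, _⟩, rfl⟩ _ ⟨b, ⟨hb, _⟩, rfl⟩ hab
    simp only at hab ⊢
    have h1 : b - (q - 1) - (a - (q - 1)) = b - a := by ring
    rw [h1]
    exact hI a ha b hb (by linarith)

theorem fat_window (T : Set ℝ) (hT : IsClosed T) (α : ℝ) (hα : IsOpt T α) (η : ℝ) (hη : 0 < η) :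
    ∃ κ₀ M₁ : ℝ, 0 < κ₀ ∧ 0 < M₁ ∧ ∀ κ : ℝ, 0 ≤ κ → κ ≤ κ₀ → ∀ A : Set ℝ, IsCompact A → Ind T A →
      ∀ c M : ℝ, M₁ ≤ M → volume.real (fat A κ ∩ Icc c (c + M)) ≤ (α + η) * M := by
  obtain ⟨hα0, hα1, hα2⟩ := hα
  have hα3 : α ≤ 1 := by
    have h1 := hα1 1 one_pos
    have h2 := u_le T 1 zero_le_one
    linarith
  obtain ⟨L₀, hL₀, hL⟩ := hα2 (η / 8) (by positivity)
  obtain ⟨L₁, hL₁⟩ : ∃ L₁ : ℝ, L₁ = L₀ + 1 + (1 + η) * (8 / η) := ⟨_, rfl⟩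
  have hq : 0 < (1 + η) * (8 / η) := by positivity
  have hL₁0 : 0 < L₁ := by linarith
  have hu := hL (L₁ + 1) (by linarith)
  have hη8 : η * ((1 + η) * (8 / η)) = 8 * (1 + η) := by
    field_simp
  have hbd : (α + η / 8) * (L₁ + 1) + η / 8 ≤ (α + η / 2) * L₁ := by
    have h1 : η * L₁ ≥ 8 * (1 + η) := by
      rw [hL₁, mul_add, hη8]
      have h2 : 0 ≤ η * (L₀ + 1) := by positivity
      linarith
    nlinarith
  obtain ⟨κ₁, hκ₁, hfat⟩ := fat_local T hT (L₁ + 1) (η / 8) (by linarith) (by positivity)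
  have hfat' : ∀ A : Set ℝ, IsCompact A → A ⊆ Icc 0 (L₁ + 1) → Ind T A →
      volume.real (fat A κ₁) ≤ (α + η / 2) * L₁ := by
    intro A h1 h2 h3
    have h4 := hfat A h1 h2 h3
    linarith
  refine ⟨min κ₁ 1, L₁ * (2 * α + η) / η, lt_min hκ₁ one_pos, by positivity, ?_⟩
  intro κ _ hκ A hA hI c M hM
  have hκ2 := hκ.trans (min_le_left _ _)
  have hκ3 := hκ.trans (min_le_right _ _)
  have hM0 : 0 < M := lt_of_lt_of_le (by positivity) hM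
  have hM2 : L₁ * (2 * α + η) ≤ M * η := (div_le_iff₀ hη).1 hM
  have hN1 : M ≤ ((⌊M / L₁⌋₊ + 1 : ℕ) : ℝ) * L₁ := by
    have h1 := (Nat.lt_floor_add_one (M / L₁)).le
    rw [div_le_iff₀ hL₁0] at h1
    push_cast
    exact h1
  have hN2 : ((⌊M / L₁⌋₊ : ℕ) : ℝ) * L₁ ≤ M := by
    have h1 := Nat.floor_le (div_nonneg hM0.le hL₁0.le)
    rwa [le_div_iff₀ hL₁0] at h1
  have h1 := F2_tile (fat A κ) L₁ ((α + η / 2) * L₁) hL₁0.le
    (fun q => F2_block hfat' hκ2 hκ3 hA hI q) (⌊M / L₁⌋₊ + 1) c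
  have h2 : volume.real (fat A κ ∩ Icc c (c + M)) ≤
      volume.real (fat A κ ∩ Icc c (c + ((⌊M / L₁⌋₊ + 1 : ℕ) : ℝ) * L₁)) := by
    refine measureReal_mono ?_ (F2_fin _ _ _)
    exact inter_subset_inter_right _ (Icc_subset_Icc_right (by linarith))
  refine h2.trans (h1.trans ?_)
  have h3 : ((⌊M / L₁⌋₊ + 1 : ℕ) : ℝ) * ((α + η / 2) * L₁) =
      (((⌊M / L₁⌋₊ : ℕ) : ℝ) * L₁ + L₁) * (α + η / 2) := by
    push_cast
    ring
  rw [h3]
  have h4 : (((⌊M / L₁⌋₊ : ℕ) : ℝ) * L₁ + L₁) * (α + η / 2) ≤ (M + L₁) * (α + η / 2) :=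
    mul_le_mul_of_nonneg_right (by linarith) (by positivity)
  refine h4.trans ?_
  linarith

end Pool.Agent.LibLP64
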