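import Pool.Agent.LibLP64.A1

/-! LP64 N1 (MEDIUM). The common neighbourhood. `N = {p ∈ [s, s+M] | X < p, p ∉ T, p - x ∉ T}` with `x ∉ T`, `0 < x ≤ X`.
It is independent by `P4` for the four reals `0 < x < p < q`, measurable, so `|N| ≤ u T M` (`le_u`). Inclusion-exclusion on
`W = [s, s+M] ∩ (X, ∞)`: `|N| = |W| - |T ∩ W| - |(T+x) ∩ W| + |T ∩ (T+x) ∩ W|`, `|W| ≥ M - X`,
`|(T+x) ∩ W| ≤ |T ∩ [s - x, s + M]| ≤ |T ∩ [s, s+M]| + X`. Here `T + x = {p | p - x ∈ T}`. -/

open MeasureTheory Set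

namespace Pool.Agent.LibLP64

private theorem N1_ind (T : Set ℝ) (hP : P4 T) (x X : ℝ) (hx : 0 < x) (hxT : x ∉ T) (hxX : x ≤ X)
    (N : Set ℝ) (hN : ∀ p ∈ N, X < p ∧ p ∉ T ∧ p - x ∉ T) : Ind T N := by
  intro a ha b hb hab
  obtain ⟨ha1, ha2, ha3⟩ := hN a ha
  obtain ⟨hb1, hb2, hb3⟩ := hN b hb
  have hmono : StrictMono ![0, x, a, b] := by
    rw [Fin.strictMono_iff_lt_succ]
    intro i
    fin_cases i
    · simpa using hx
    · simpa using lt_of_le_of_lt hxX ha1
    · simpa using hab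
  obtain ⟨i, j, hij, h⟩ := hP _ hmono
  fin_cases i <;> fin_cases j <;> simp at hij h
  · exact absurd h hxT
  · exact absurd h ha2
  · exact absurd h hb2
  · exact absurd h ha3
  · exact absurd h hb3
  · exact h

private theorem N1_shift (T : Set ℝ) (x s M : ℝ) (hx : 0 < x) :
    volume.real ({p | p - x ∈ T} ∩ Icc s (s + M)) ≤ volume.real (T ∩ Icc s (s + M)) + x := by
  have h1 : ({p | p - x ∈ T} ∩ Icc s (s + M)) =
      (fun p => p + (-x)) ⁻¹' (T ∩ Icc (s - x) (s + M - x)) := by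
    ext p
    simp only [mem_inter_iff, mem_ofPred_eq, mem_Icc, mem_preimage, ← sub_eq_add_neg]
    constructor
    · rintro ⟨h1, h2, h3⟩
      exact ⟨h1, by linarith, by linarith⟩
    · rintro ⟨h1, h2, h3⟩
      exact ⟨h1, by linarith, by linarith⟩
  have h2 : volume.real ({p | p - x ∈ T} ∩ Icc s (s + M)) =
      volume.real (T ∩ Icc (s - x) (s + M - x)) := by
    rw [h1, measureReal_def, measureReal_def, measure_preimage_add_right]
  rw [h2]
  have h3 : T ∩ Icc (s - x) (s + M - x) ⊆ (T ∩ Icc s (s + M)) ∪ Icc (s - x) s := by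
    rintro p ⟨h1, h2, h3⟩
    by_cases h : p ≤ s
    · exact Or.inr ⟨h2, h⟩
    · exact Or.inl ⟨h1, by linarith, by linarith⟩
  have hfin : volume ((T ∩ Icc s (s + M)) ∪ Icc (s - x) s) ≠ ⊤ := by
    refine ne_top_of_le_ne_top ?_ (measure_union_le _ _)
    refine ENNReal.add_ne_top.2 ⟨?_, ?_⟩
    · exact ne_top_of_le_ne_top (by simp [Real.volume_Icc]) (measure_mono inter_subset_right)
    · simp [Real.volume_Icc]
  calc volume.real (T ∩ Icc (s - x) (s + M - x))
      ≤ volume.real ((T ∩ Icc s (s + M)) ∪ Icc (s - x) s) := measureReal_mono h3 hfin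
    _ ≤ volume.real (T ∩ Icc s (s + M)) + volume.real (Icc (s - x) s) := measureReal_union_le _ _
    _ = volume.real (T ∩ Icc s (s + M)) + x := by
        rw [Real.volume_real_Icc_of_le (by linarith)]
        ring

theorem common_nbhd (T : Set ℝ) (hT : IsClosed T) (hP : P4 T) (x X s M : ℝ) (hx : 0 < x) (hxT : x ∉ T)
    (hxX : x ≤ X) (hs : 0 ≤ s) (hM : 0 ≤ M) :
    M - 2 * X - 2 * volume.real (T ∩ Icc s (s + M)) +
      volume.real ({p | p ∈ T ∧ p - x ∈ T} ∩ (Icc s (s + M) ∩ Ioi X)) ≤ u T M := by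
  set W : Set ℝ := Icc s (s + M) ∩ Ioi X with hW
  set T' : Set ℝ := {p | p - x ∈ T} with hT'
  have hTm : MeasurableSet T := hT.measurableSet
  have hT'm : MeasurableSet T' := by
    have : T' = (fun p : ℝ => p - x) ⁻¹' T := rfl
    rw [this]
    exact (measurable_id.sub_const x) hTm
  have hWm : MeasurableSet W := measurableSet_Icc.inter measurableSet_Ioi
  have hfin : ∀ A : Set ℝ, A ⊆ Icc s (s + M) → volume A ≠ ⊤ := fun A hA =>
    ne_top_of_le_ne_top (by simp [Real.volume_Icc]) (measure_mono hA)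
  have hWI : W ⊆ Icc s (s + M) := inter_subset_left
  have hN := le_u T M s hM ((W \ T) \ T') ((hWm.diff hTm).diff hT'm)
    (fun p hp => hWI hp.1.1)
    (N1_ind T hP x X hx hxT hxX _ (fun p hp => ⟨hp.1.1.2, hp.1.2, hp.2⟩))
  -- inclusion-exclusion
  have e1 : volume.real (W ∩ T) + volume.real (W \ T) = volume.real W :=
    measureReal_inter_add_sdiff hTm (hfin _ hWI)
  have e2 : volume.real ((W \ T) ∩ T') + volume.real ((W \ T) \ T') = volume.real (W \ T) :=
    measureReal_inter_add_sdiff hT'm (hfin _ (fun p hp => hWI hp.1))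
  have e3 : volume.real ((W ∩ T') ∩ T) + volume.real ((W ∩ T') \ T) = volume.real (W ∩ T') :=
    measureReal_inter_add_sdiff hTm (hfin _ (fun p hp => hWI hp.1))
  have e4 : (W \ T) ∩ T' = (W ∩ T') \ T := by
    ext p
    simp only [mem_inter_iff, mem_sdiff]
    tauto
  have e5 : {p | p ∈ T ∧ p - x ∈ T} ∩ W = (W ∩ T') ∩ T := by
    ext p
    simp only [mem_inter_iff, mem_ofPred_eq, hT']
    tauto
  rw [e5]
  rw [e4] at e2
  -- bounds
  have b1 : volume.real (W ∩ T) ≤ volume.real (T ∩ Icc s (s + M)) :=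
    measureReal_mono (fun p hp => ⟨hp.2, hWI hp.1⟩) (hfin _ inter_subset_right)
  have b20 : W ∩ T' ⊆ {p | p - x ∈ T} ∩ Icc s (s + M) := fun p hp => ⟨hp.2, hWI hp.1⟩
  have b2 : volume.real (W ∩ T') ≤ volume.real (T ∩ Icc s (s + M)) + x :=
    le_trans (measureReal_mono b20 (hfin _ inter_subset_right)) (N1_shift T x s M hx)
  have b3 : M - X ≤ volume.real W := by
    have h1 : Icc s (s + M) ⊆ W ∪ Icc 0 X := by
      intro p hp
      by_cases h : X < p
      · exact Or.inl ⟨hp, h⟩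
      · exact Or.inr ⟨le_trans hs hp.1, not_lt.1 h⟩
    have h2 : volume (W ∪ Icc 0 X) ≠ ⊤ := by
      refine ne_top_of_le_ne_top ?_ (measure_union_le _ _)
      exact ENNReal.add_ne_top.2 ⟨hfin _ hWI, by simp [Real.volume_Icc]⟩
    have h3 := measureReal_mono h1 h2
    have h4 := measureReal_union_le (μ := volume) W (Icc 0 X)
    rw [Real.volume_real_Icc_of_le (by linarith)] at h3
    rw [Real.volume_real_Icc_of_le (by linarith : (0 : ℝ) ≤ X)] at h4
    linarith
  linarith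

end Pool.Agent.LibLP64
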