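import Pool.Agent.LibLP64.Defs

/-! LP64 O1 (SHORT). Overlap. Let `a, b ∈ A ∩ [c, c + L]`, `a ≤ b`, `x = b - a + θ`, `|θ| ≤ κ`, `0 < x`. For
`y ∈ A`, `y - θ ∈ A`, `y ∈ [c + s, c + s + M]`, `c + s + 2 L + 2 κ + 1 ≤ y`, the point `p = y - a` is in `T` (`a < y`),
`p - x = (y - θ) - b ∈ T` (`b < y - θ`), `s ≤ p ≤ s + M` and `L + κ < p`. Translation by `-a` preserves the measure, and
cutting off `[c + s, c + s + 2 L + 2 κ + 1]` costs at most `2 L + 2 κ + 1`. -/

open MeasureTheory Set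

namespace Pool.Agent.LibLP64

theorem overlap (T : Set ℝ) (hT : IsClosed T) (A : Set ℝ) (hA : IsCompact A) (hI : Ind T A) (c L κ s M θ a b : ℝ)
    (hL : 0 ≤ L) (hκ : 0 ≤ κ) (hs : 0 ≤ s) (hM : 0 ≤ M) (ha : a ∈ A) (hb : b ∈ A) (hab : a ≤ b)
    (hac : c ≤ a) (hbc : b ≤ c + L) (hθ : |θ| ≤ κ) (hx : 0 < b - a + θ) :
    volume.real ({y | y ∈ A ∧ y - θ ∈ A} ∩ Icc (c + s) (c + s + M)) - (2 * L + 2 * κ + 1) ≤
      volume.real ({p | p ∈ T ∧ p - (b - a + θ) ∈ T} ∩ (Icc s (s + M) ∩ Ioi (L + κ))) := by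
  have hθ' := abs_le.mp hθ
  set E : Set ℝ := {y | y ∈ A ∧ y - θ ∈ A} ∩ Icc (c + s) (c + s + M) with hE
  set S1 : Set ℝ := E ∩ Ici (c + s + (2 * L + 2 * κ + 1)) with hS1
  set F : Set ℝ := {p | p ∈ T ∧ p - (b - a + θ) ∈ T} ∩ (Icc s (s + M) ∩ Ioi (L + κ)) with hF
  have hEfin : volume E ≠ ⊤ :=
    ne_top_of_le_ne_top (measure_Icc_lt_top (a := c + s) (b := c + s + M)).ne (measure_mono inter_subset_right)
  have hFfin : volume F ≠ ⊤ :=
    ne_top_of_le_ne_top (measure_Icc_lt_top (a := s) (b := s + M)).ne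
      (measure_mono (fun z hz => hz.2.1))
  have hIfin : volume (Icc (c + s) (c + s + (2 * L + 2 * κ + 1))) ≠ ⊤ :=
    (measure_Icc_lt_top (a := c + s) (b := c + s + (2 * L + 2 * κ + 1))).ne
  have hS1fin : volume S1 ≠ ⊤ := ne_top_of_le_ne_top hEfin (measure_mono inter_subset_left)
  have h1 : volume.real E ≤ volume.real (S1 ∪ Icc (c + s) (c + s + (2 * L + 2 * κ + 1))) := by
    refine measureReal_mono ?_ (measure_union_lt_top (lt_top_iff_ne_top.mpr hS1fin) (lt_top_iff_ne_top.mpr hIfin)).ne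
    intro y hy
    rcases le_total (c + s + (2 * L + 2 * κ + 1)) y with h | h
    · exact Or.inl ⟨hy, h⟩
    · exact Or.inr ⟨hy.2.1, h⟩
  have h2 : volume.real (S1 ∪ Icc (c + s) (c + s + (2 * L + 2 * κ + 1))) ≤
      volume.real S1 + volume.real (Icc (c + s) (c + s + (2 * L + 2 * κ + 1))) :=
    measureReal_union_le _ _
  have h3 : volume.real (Icc (c + s) (c + s + (2 * L + 2 * κ + 1))) = 2 * L + 2 * κ + 1 := by
    rw [Real.volume_real_Icc_of_le (by linarith)]
    ring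
  have h4 : volume.real ((fun z => z + a) ⁻¹' S1) = volume.real S1 := by
    simp only [measureReal_def, measure_preimage_add_right]
  have h5 : volume.real ((fun z => z + a) ⁻¹' S1) ≤ volume.real F := by
    refine measureReal_mono ?_ hFfin
    intro p hp
    have hp1 : p + a ∈ A := hp.1.1.1
    have hp2 : p + a - θ ∈ A := hp.1.1.2
    have hp3 : p + a ≤ c + s + M := hp.1.2.2
    have hp4 : c + s + (2 * L + 2 * κ + 1) ≤ p + a := hp.2
    refine ⟨⟨?_, ?_⟩, ⟨?_, ?_⟩, ?_⟩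
    · have h := hI a ha (p + a) hp1 (by linarith)
      have he : p + a - a = p := by ring
      rwa [he] at h
    · have h := hI b hb (p + a - θ) hp2 (by linarith [hθ'.2])
      have he : p + a - θ - b = p - (b - a + θ) := by ring
      rwa [he] at h
    · linarith
    · linarith
    · show L + κ < p
      linarith
  linarith

end Pool.Agent.LibLP64
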