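import Pool.Agent.LibLP64.G0

/-! LP64 G1 (MEDIUM). The gain. `E = fat A κ \ A` (measurable, bounded). Integrate `hole` over `a ∈ A` and exchange (Tonelli,
`lintegral_lintegral_swap` or `Measure.prod` of the set `{(a, y) | a ∈ A, y ∈ E, a < y, y ≤ a + x₂}`):
`κ |A| ≤ ∫_{a ∈ A} |E ∩ (a, a + x₂]| da = ∫_{y ∈ E} |A ∩ [y - x₂, y)| dy ≤ x₂ |E|`, and `|fat A κ| = |A| + |E|`. -/

open MeasureTheory Set

namespace Pool.Agent.LibLP64

theorem gain (T A : Set ℝ) (hA : IsCompact A) (hI : Ind T A) (x₁ x₂ κ : ℝ) (h1 : 0 ≤ x₁)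
    (hgap : ∀ x, x₁ < x → x < x₂ → x ∉ T) (hκ : 0 < κ) (hκ2 : κ ≤ x₂ - x₁) :
    volume.real A * (1 + κ / x₂) ≤ volume.real (fat A κ) := by
  have hx2 : 0 < x₂ := by linarith
  have hfc : IsCompact (fat A κ) := by
    have e : fat A κ = (fun p : ℝ × ℝ => p.1 + p.2) '' (A ×ˢ Icc 0 κ) := by
      ext x
      constructor
      · rintro ⟨a, ha, h2, h3⟩
        refine ⟨(a, x - a), ⟨ha, ?_, ?_⟩, ?_⟩
        · show 0 ≤ x - a
          linarith
        · show x - a ≤ κ
          linarith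
        · show a + (x - a) = x
          ring
      · rintro ⟨⟨a, t⟩, ⟨ha, ht0, ht1⟩, rfl⟩
        refine ⟨a, ha, ?_, ?_⟩
        · show a ≤ a + t
          have : (0 : ℝ) ≤ t := ht0
          linarith
        · show a + t ≤ a + κ
          have : t ≤ κ := ht1
          linarith
    rw [e]
    exact (hA.prod isCompact_Icc).image (by fun_prop)
  have hAf : A ⊆ fat A κ := fun a ha => ⟨a, ha, le_rfl, by linarith⟩
  have hEm : MeasurableSet (fat A κ \ A) := hfc.measurableSet.diff hA.measurableSet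
  have hEfin : volume (fat A κ \ A) ≠ ⊤ :=
    ((measure_mono sdiff_subset).trans_lt hfc.measure_lt_top).ne
  have hsum : volume.real (fat A κ) = volume.real A + volume.real (fat A κ \ A) := by
    have h := measureReal_inter_add_sdiff (μ := volume) (s := fat A κ) hA.measurableSet
      hfc.measure_lt_top.ne
    rw [inter_eq_self_of_subset_right hAf] at h
    exact h.symm
  have hole' := hole T A hA hI x₁ x₂ κ h1 hgap hκ hκ2
  generalize fat A κ \ A = E at hEm hEfin hsum hole'
  have hAfin : volume A ≠ ⊤ := hA.measure_lt_top.ne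
  have hSm : MeasurableSet {p : ℝ × ℝ | p.1 < p.2 ∧ p.2 ≤ p.1 + x₂} := by
    refine (measurableSet_lt measurable_fst measurable_snd).inter
      (measurableSet_le measurable_snd (measurable_fst.add_const x₂))
  have hp1 := Measure.prod_apply (μ := volume.restrict A) (ν := volume.restrict E) hSm
  have hp2 := Measure.prod_apply_symm (μ := volume.restrict A) (ν := volume.restrict E) hSm
  rw [hp1] at hp2
  have low : ENNReal.ofReal κ * volume A ≤ ∫⁻ a, (volume.restrict E)
      (Prod.mk a ⁻¹' {p : ℝ × ℝ | p.1 < p.2 ∧ p.2 ≤ p.1 + x₂}) ∂(volume.restrict A) := by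
    rw [← setLIntegral_const]
    refine setLIntegral_mono' hA.measurableSet fun a ha => ?_
    have e : Prod.mk a ⁻¹' {p : ℝ × ℝ | p.1 < p.2 ∧ p.2 ≤ p.1 + x₂} = Ioc a (a + x₂) := rfl
    rw [e, Measure.restrict_apply measurableSet_Ioc, inter_comm]
    refine ENNReal.ofReal_le_of_le_toReal (hole' a ha)
  have upp : ∫⁻ y, (volume.restrict A)
      ((fun a => (a, y)) ⁻¹' {p : ℝ × ℝ | p.1 < p.2 ∧ p.2 ≤ p.1 + x₂}) ∂(volume.restrict E) ≤
      ENNReal.ofReal x₂ * volume E := by
    rw [← setLIntegral_const]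
    refine lintegral_mono fun y => ?_
    have e : (fun a => (a, y)) ⁻¹' {p : ℝ × ℝ | p.1 < p.2 ∧ p.2 ≤ p.1 + x₂} ⊆
        Ico (y - x₂) y := by
      rintro a ⟨ha1, ha2⟩
      have h3 : a < y := ha1
      have h4 : y ≤ a + x₂ := ha2
      exact ⟨by linarith, h3⟩
    calc _ ≤ volume ((fun a => (a, y)) ⁻¹' {p : ℝ × ℝ | p.1 < p.2 ∧ p.2 ≤ p.1 + x₂}) :=
          Measure.restrict_apply_le _ _
      _ ≤ volume (Ico (y - x₂) y) := measure_mono e
      _ = ENNReal.ofReal x₂ := by
          rw [Real.volume_Ico]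
          congr 1
          ring
  have hmain : ENNReal.ofReal κ * volume A ≤ ENNReal.ofReal x₂ * volume E :=
    low.trans (hp2.le.trans upp)
  have hreal : κ * volume.real A ≤ x₂ * volume.real E := by
    have h := ENNReal.toReal_mono (ENNReal.mul_ne_top ENNReal.ofReal_ne_top hEfin) hmain
    rw [ENNReal.toReal_mul, ENNReal.toReal_mul, ENNReal.toReal_ofReal hκ.le,
      ENNReal.toReal_ofReal hx2.le] at h
    exact h
  rw [hsum]
  have h5 : κ / x₂ * volume.real A ≤ volume.real E := by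
    rw [div_mul_eq_mul_div, div_le_iff₀ hx2]
    linarith
  linarith

end Pool.Agent.LibLP64
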