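import Pool.Agent.LibLP64.A2
import Pool.Agent.LibLP64.G1

/-! LP64 P1 (MEDIUM). Pairs. `η' = α κ / (16 x₂ + 16)`-ish and `L₂` large. Suppose no pair exists. Then `fat A κ` is
independent: let `x < y` in it, `x = a + σ`, `y = b + τ`, `σ, τ ∈ [0, κ]`; if `a ≤ b` use the pair `(a, b)` and
`θ = τ - σ`; if `b < a` use the pair `(a, a)` and `θ = y - x` (then `0 < y - x ≤ κ`). `fat A κ` is compact (image of
`A ×ˢ Icc 0 κ`), inside `Icc c (c + (L₂ + κ))`, so by `le_u`, `u_add`, `u_le`: `volume.real (fat A κ) ≤ u T L₂ + κ ≤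
(α + η') L₂ + κ`; by `gain` it is `≥ (α - η') L₂ (1 + κ / x₂)`. Contradiction for small `η'` and large `L₂`. -/

open MeasureTheory Set

namespace Pool.Agent.LibLP64

private theorem p1_fat_compact (A : Set ℝ) (κ : ℝ) (hA : IsCompact A) : IsCompact (fat A κ) := by
  have h : fat A κ = (fun p : ℝ × ℝ => p.1 + p.2) '' (A ×ˢ Icc 0 κ) := by
    ext x
    constructor
    · rintro ⟨a, ha, h1, h2⟩
      exact ⟨(a, x - a), ⟨ha, by constructor <;> simp <;> linarith⟩, by simp⟩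
    · rintro ⟨⟨a, s⟩, ⟨ha, hs⟩, rfl⟩
      simp only at ha hs
      exact ⟨a, ha, by simp only; linarith [hs.1], by simp only; linarith [hs.2]⟩
  rw [h]
  exact (hA.prod isCompact_Icc).image (continuous_fst.add continuous_snd)

private theorem p1_fat_sub (A : Set ℝ) (κ c L : ℝ) (hA : A ⊆ Icc c (c + L)) :
    fat A κ ⊆ Icc c (c + (L + κ)) := by
  rintro x ⟨a, ha, h1, h2⟩
  have h3 := hA ha
  exact ⟨by linarith [h3.1], by linarith [h3.2]⟩

private theorem p1_fat_ind (T A : Set ℝ) (κ : ℝ)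
    (hno : ∀ a ∈ A, ∀ b ∈ A, a ≤ b → ∀ θ : ℝ, |θ| ≤ κ → 0 < b - a + θ → b - a + θ ∈ T) :
    Ind T (fat A κ) := by
  rintro x ⟨a, ha, ha1, ha2⟩ y ⟨b, hb, hb1, hb2⟩ hxy
  rcases le_or_gt a b with hab | hab
  · have h := hno a ha b hb hab ((y - b) - (x - a)) (abs_le.2 ⟨by linarith, by linarith⟩)
      (by linarith)
    have he : b - a + ((y - b) - (x - a)) = y - x := by ring
    rwa [he] at h
  · have h := hno a ha a ha le_rfl (y - x) (abs_le.2 ⟨by linarith, by linarith⟩) (by linarith)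
    have he : a - a + (y - x) = y - x := by ring
    rwa [he] at h

theorem pairs (T : Set ℝ) (α : ℝ) (hα : IsOpt T α) (hpos : 0 < α) (x₁ x₂ κ : ℝ) (h1 : 0 ≤ x₁)
    (hgap : ∀ x, x₁ < x → x < x₂ → x ∉ T) (hκ : 0 < κ) (hκ2 : κ ≤ x₂ - x₁) :
    ∃ η' L₂ : ℝ, 0 < η' ∧ 0 < L₂ ∧ ∀ L : ℝ, L₂ ≤ L → ∀ (A : Set ℝ) (c : ℝ), IsCompact A → A ⊆ Icc c (c + L) →
      Ind T A → (α - η') * L ≤ volume.real A →
      ∃ a ∈ A, ∃ b ∈ A, a ≤ b ∧ ∃ θ : ℝ, |θ| ≤ κ ∧ 0 < b - a + θ ∧ b - a + θ ∉ T := by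
  obtain ⟨h0, hlow, hup⟩ := hα
  have hx2 : 0 < x₂ := by linarith
  obtain ⟨δ, hδ⟩ : ∃ δ : ℝ, δ = κ / x₂ := ⟨_, rfl⟩
  have hδ0 : 0 < δ := by rw [hδ]; exact div_pos hκ hx2
  have hδ1 : δ ≤ 1 := by
    rw [hδ, div_le_one hx2]
    linarith
  have hη : 0 < α * δ / 8 := by positivity
  obtain ⟨L₀, hL₀, hL₀'⟩ := hup (α * δ / 8) hη
  refine ⟨α * δ / 8, max L₀ (2 * κ / (α * δ)), hη, lt_max_of_lt_left hL₀, ?_⟩
  intro L hL A c hAc hAs hAI hAv
  by_contra hcon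
  have hno : ∀ a ∈ A, ∀ b ∈ A, a ≤ b → ∀ θ : ℝ, |θ| ≤ κ → 0 < b - a + θ → b - a + θ ∈ T := by
    intro a ha b hb hab θ hθ hpos'
    by_contra hn
    exact hcon ⟨a, ha, b, hb, hab, θ, hθ, hpos', hn⟩
  have hLL₀ : L₀ ≤ L := le_trans (le_max_left _ _) hL
  have hL2 : 2 * κ / (α * δ) ≤ L := le_trans (le_max_right _ _) hL
  have hLpos : 0 < L := lt_of_lt_of_le hL₀ hLL₀
  have hfI := p1_fat_ind T A κ hno
  have hfc := p1_fat_compact A κ hAc
  have hfs := p1_fat_sub A κ c L hAs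
  have h1' : volume.real (fat A κ) ≤ u T (L + κ) :=
    le_u T (L + κ) c (by linarith) (fat A κ) hfc.measurableSet hfs hfI
  have h2' : u T (L + κ) ≤ u T L + u T κ := u_add T L κ hLpos.le hκ.le
  have h3' : u T κ ≤ κ := u_le T κ hκ.le
  have h4' : u T L ≤ (α + α * δ / 8) * L := hL₀' L hLL₀
  have h5' : volume.real A * (1 + κ / x₂) ≤ volume.real (fat A κ) :=
    gain T A hAc hAI x₁ x₂ κ h1 hgap hκ hκ2
  rw [← hδ] at h5'
  have h6' : (α - α * δ / 8) * L * (1 + δ) ≤ volume.real A * (1 + δ) :=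
    mul_le_mul_of_nonneg_right hAv (by linarith)
  have h7' : (α - α * δ / 8) * L * (1 + δ) ≤ (α + α * δ / 8) * L + κ := by linarith
  have h8' : 2 * κ ≤ L * (α * δ) := by
    rw [div_le_iff₀ (by positivity)] at hL2
    exact hL2
  have h9' : 0 ≤ L * (α * δ) * (1 - δ) := by
    apply mul_nonneg
    · positivity
    · linarith
  nlinarith [h7', h8', h9']

end Pool.Agent.LibLP64
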