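import Pool.Agent.LibLP64.Defs

open MeasureTheory Set

namespace Pool.Agent.LibLP64

private theorem s1_pre (S : Set ℝ) (θ : ℝ) : volume.real {x | x - θ ∈ S} = volume.real S := by
  have h : {x | x - θ ∈ S} = (fun x => x + (-θ)) ⁻¹' S := by
    ext x; simp [sub_eq_add_neg]
  rw [Measure.real, h, measure_preimage_add_right, Measure.real]

/-- moving a window by `θ ≥ 0` costs at most `θ` -/
private theorem s1_move (S : Set ℝ) (c M θ : ℝ) (hM : 0 ≤ M) (hθ : 0 ≤ θ) :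
    volume.real (S ∩ Icc c (c + M)) ≤ volume.real (S ∩ Icc (c - θ) (c - θ + M)) + θ := by
  have h1 : S ∩ Icc c (c + M) ⊆ (S ∩ Icc (c - θ) (c - θ + M)) ∪ Ioc (c + M - θ) (c + M) := by
    rintro x ⟨hx, h1, h2⟩
    by_cases h3 : x ≤ c + M - θ
    · left; exact ⟨hx, by linarith, by linarith⟩
    · right; push Not at h3; exact ⟨h3, h2⟩
  have hfin : volume ((S ∩ Icc (c - θ) (c - θ + M)) ∪ Ioc (c + M - θ) (c + M)) ≠ ⊤ := by
    apply measure_union_ne_top
    · exact measure_ne_top_of_subset inter_subset_right isCompact_Icc.measure_lt_top.ne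
    · exact measure_Ioc_lt_top.ne
  have h2 := measureReal_mono (μ := volume) h1 hfin
  have h3 := measureReal_union_le (μ := volume) (S ∩ Icc (c - θ) (c - θ + M)) (Ioc (c + M - θ) (c + M))
  rw [Real.volume_real_Ioc_of_le (by linarith)] at h3
  linarith

/-- moving a window to the right -/
private theorem s1_move' (S : Set ℝ) (c M θ : ℝ) (hM : 0 ≤ M) (hθ : 0 ≤ θ) :
    volume.real (S ∩ Icc c (c + M)) ≤ volume.real (S ∩ Icc (c + θ) (c + θ + M)) + θ := by
  have h1 : S ∩ Icc c (c + M) ⊆ (S ∩ Icc (c + θ) (c + θ + M)) ∪ Ico c (c + θ) := by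
    rintro x ⟨hx, h1, h2⟩
    by_cases h3 : c + θ ≤ x
    · left; exact ⟨hx, by linarith, by linarith⟩
    · right; push Not at h3; exact ⟨h1, h3⟩
  have hfin : volume ((S ∩ Icc (c + θ) (c + θ + M)) ∪ Ico c (c + θ)) ≠ ⊤ := by
    apply measure_union_ne_top
    · exact measure_ne_top_of_subset inter_subset_right isCompact_Icc.measure_lt_top.ne
    · exact measure_Ico_lt_top.ne
  have h2 := measureReal_mono (μ := volume) h1 hfin
  have h3 := measureReal_union_le (μ := volume) (S ∩ Icc (c + θ) (c + θ + M)) (Ico c (c + θ))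
  rw [Real.volume_real_Ico_of_le (by linarith)] at h3
  linarith

private theorem s1_pos (A : Set ℝ) (hA : IsCompact A) (κ θ : ℝ) (h0 : 0 ≤ θ) (hθ : θ ≤ κ) (c M : ℝ) (hM : 0 ≤ M) :
    2 * volume.real (A ∩ Icc c (c + M)) - θ - volume.real (fat A κ ∩ Icc c (c + M)) ≤
      volume.real ({x | x ∈ A ∧ x - θ ∈ A} ∩ Icc c (c + M)) := by
  set J := Icc c (c + M) with hJ
  have hAm : MeasurableSet A := hA.measurableSet
  have hBm : MeasurableSet {x | x - θ ∈ A} := (measurable_id.sub_const θ) hAm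
  have hfin : ∀ S : Set ℝ, volume (S ∩ J) ≠ ⊤ := fun S =>
    measure_ne_top_of_subset inter_subset_right isCompact_Icc.measure_lt_top.ne
  have h1 : volume.real ((A ∩ J) ∪ ({x | x - θ ∈ A} ∩ J)) + volume.real ((A ∩ J) ∩ ({x | x - θ ∈ A} ∩ J)) =
      volume.real (A ∩ J) + volume.real ({x | x - θ ∈ A} ∩ J) :=
    measureReal_union_add_inter (hBm.inter measurableSet_Icc) (hfin _) (hfin _)
  have h2 : volume.real ((A ∩ J) ∪ ({x | x - θ ∈ A} ∩ J)) ≤ volume.real (fat A κ ∩ J) := by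
    apply measureReal_mono _ (hfin _)
    rintro x (⟨hx, hxJ⟩ | ⟨hx, hxJ⟩)
    · exact ⟨⟨x, hx, le_rfl, by linarith⟩, hxJ⟩
    · exact ⟨⟨x - θ, hx, by linarith, by linarith⟩, hxJ⟩
  have h3 : (A ∩ J) ∩ ({x | x - θ ∈ A} ∩ J) = {x | x ∈ A ∧ x - θ ∈ A} ∩ J := by
    ext x; simp only [mem_inter_iff, mem_setOf_eq]; tauto
  have h4 : {x | x - θ ∈ A} ∩ J = {x | x - θ ∈ A ∩ Icc (c - θ) (c - θ + M)} := by
    ext x
    simp only [hJ, mem_inter_iff, mem_setOf_eq, mem_Icc]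
    constructor
    · rintro ⟨h, h', h''⟩; exact ⟨h, by linarith, by linarith⟩
    · rintro ⟨h, h', h''⟩; exact ⟨h, by linarith, by linarith⟩
  have h5 := s1_move A c M θ hM h0
  have h6 : volume.real ({x | x - θ ∈ A} ∩ J) = volume.real (A ∩ Icc (c - θ) (c - θ + M)) := by
    rw [h4, s1_pre]
  rw [h3] at h1
  linarith

theorem shift_bound (A : Set ℝ) (hA : IsCompact A) (κ θ : ℝ) (hθ : |θ| ≤ κ) (c M : ℝ) (hM : 0 ≤ M) :
    2 * volume.real (A ∩ Icc c (c + M)) - 2 * κ - volume.real (fat A κ ∩ Icc c (c + M)) ≤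
      volume.real ({x | x ∈ A ∧ x - θ ∈ A} ∩ Icc c (c + M)) := by
  obtain ⟨hl, hr⟩ := abs_le.1 hθ
  rcases le_total 0 θ with h0 | h0
  · have := s1_pos A hA κ θ h0 hr c M hM
    linarith
  · have h1 := s1_pos A hA κ (-θ) (by linarith) (by linarith) c M hM
    have h2 := s1_move' {x | x ∈ A ∧ x - (-θ) ∈ A} c M (-θ) hM (by linarith)
    have h3 : {x | x ∈ A ∧ x - θ ∈ A} ∩ Icc c (c + M) =
        {x | x - θ ∈ {x | x ∈ A ∧ x - (-θ) ∈ A} ∩ Icc (c + -θ) (c + -θ + M)} := by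
      ext x
      simp only [mem_inter_iff, mem_setOf_eq, mem_Icc]
      constructor
      · rintro ⟨⟨h, h'⟩, h'', h'''⟩
        refine ⟨⟨h', by simpa using h⟩, by linarith, by linarith⟩
      · rintro ⟨⟨h, h'⟩, h'', h'''⟩
        refine ⟨⟨by simpa using h', h⟩, by linarith, by linarith⟩
    rw [h3, s1_pre]
    linarith

end Pool.Agent.LibLP64
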