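import Pool.Agent.LibLP64.A2

/-! LP64 Sel (MEDIUM). Selection of two rich windows at distance `s`. Choose `M₂` with `u T L ≤ (α + η/8) L`,
`u T L ≤ (α + η'/8) L` for `L ≥ M₂`. Given `s, L, M` take a very long interval `[0, N]` and a compact independent
`A ⊆ [0, N]` with `volume.real A ≥ α N - 1` (`exists_near` and `IsOpt`). `f c = |A ∩ [c, c + L]| ≤ (α + η'/8) L`,
`g c = |A ∩ [c + s, c + s + M]| ≤ (α + η/8) M` (`le_u`). Tonelli: `∫_0^{N'} f ≥ L (|A| - 2 L - (N - N'))`, the same for `g`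
(`N' = N - s - M - L`; the points of `A` in `[L, N']` are counted for a set of `c` of measure `L`; for `g` those in
`[s + M, N' + s]`). If every `c ∈ [0, N']` fails, one of `{f < (α - η') L}`, `{g < (α - η) M}` has measure `≥ N'/2`
and the integral is too small. (A discrete version with `c = k L` is also possible.) -/

open MeasureTheory Set

namespace Pool.Agent.LibLP64

private theorem Sel_union (A : Set ℝ) (a b d : ℝ) :
    volume.real (A ∩ Icc a (b + d)) ≤ volume.real (A ∩ Icc a b) + volume.real (A ∩ Icc b (b + d)) := by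
  have hsub : A ∩ Icc a (b + d) ⊆ (A ∩ Icc a b) ∪ (A ∩ Icc b (b + d)) := by
    rintro x ⟨hxA, hx1, hx2⟩
    rcases le_total x b with h | h
    · exact Or.inl ⟨hxA, hx1, h⟩
    · exact Or.inr ⟨hxA, h, hx2⟩
  have hfin : volume ((A ∩ Icc a b) ∪ (A ∩ Icc b (b + d))) ≠ ⊤ := by
    refine ne_top_of_le_ne_top (b := volume (Icc a b ∪ Icc b (b + d))) ?_ (measure_mono ?_)
    · refine ne_top_of_le_ne_top ?_ (measure_union_le _ _)
      rw [Real.volume_Icc, Real.volume_Icc]
      exact ENNReal.add_ne_top.2 ⟨ENNReal.ofReal_ne_top, ENNReal.ofReal_ne_top⟩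
    · exact union_subset_union inter_subset_right inter_subset_right
  exact (measureReal_mono hsub hfin).trans (measureReal_union_le _ _)

private theorem Sel_win {T : Set ℝ} {A : Set ℝ} (hA : IsCompact A) (hI : Ind T A) {δ : ℝ} {L c : ℝ} (hL : 0 ≤ L)
    (hu : u T L ≤ δ * L) : volume.real (A ∩ Icc c (c + L)) ≤ δ * L :=
  (le_u T L c hL (A ∩ Icc c (c + L)) (hA.isClosed.measurableSet.inter measurableSet_Icc) inter_subset_right
    (hI.mono inter_subset_left)).trans hu

private theorem Sel_greedy (S : ℝ → ℝ) (κ m K : ℝ) (hm : 0 < m) (h0 : S 0 ≤ 0)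
    (hstep : ∀ c, S c ≤ κ * c → ∃ c', c + m ≤ c' ∧ c' ≤ c + K ∧ S c' ≤ κ * c') (hK : 0 ≤ K) :
    ∀ n : ℕ, ∀ X : ℝ, 0 ≤ X → X ≤ n * m → ∃ c, X ≤ c ∧ c ≤ X + K ∧ S c ≤ κ * c := by
  intro n
  induction n with
  | zero =>
    intro X hX hX2
    have : X = 0 := le_antisymm (by simpa using hX2) hX
    subst this
    exact ⟨0, le_refl _, by simpa using hK, by simpa using h0⟩
  | succ n ih =>
    intro X hX hX2
    push_cast at hX2
    rcases le_total X m with h | h
    · obtain ⟨c, h1, h2, h3⟩ := ih 0 (le_refl _) (by positivity)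
      rcases le_total X c with h4 | h4
      · exact ⟨c, h4, by linarith, h3⟩
      · obtain ⟨c', h5, h6, h7⟩ := hstep c h3
        exact ⟨c', by linarith, by linarith, h7⟩
    · obtain ⟨c, h1, h2, h3⟩ := ih (X - m) (by linarith) (by linarith)
      rcases le_total X c with h4 | h4
      · exact ⟨c, h4, by linarith, h3⟩
      · obtain ⟨c', h5, h6, h7⟩ := hstep c h3
        exact ⟨c', by linarith, by linarith, h7⟩

theorem select (T : Set ℝ) (α : ℝ) (hα : IsOpt T α) (η η' : ℝ) (hη : 0 < η) (hη' : 0 < η') :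
    ∃ M₂ : ℝ, 0 < M₂ ∧ ∀ s L M : ℝ, 0 ≤ s → M₂ ≤ L → M₂ ≤ M →
      ∃ (A : Set ℝ) (c : ℝ), IsCompact A ∧ Ind T A ∧ (α - η') * L ≤ volume.real (A ∩ Icc c (c + L)) ∧
        (α - η) * M ≤ volume.real (A ∩ Icc (c + s) (c + s + M)) := by
  obtain ⟨hα0, hαL, hαu⟩ := hα
  obtain ⟨L₁, hL₁, hu₁⟩ := hαu (η / 8) (by positivity)
  obtain ⟨L₂, hL₂, hu₂⟩ := hαu (η' / 8) (by positivity)
  refine ⟨max L₁ L₂, lt_max_of_lt_left hL₁, ?_⟩
  intro s L M hs hLM hMM
  have hL1 : L₂ ≤ L := (le_max_right _ _).trans hLM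
  have hM1 : L₁ ≤ M := (le_max_left _ _).trans hMM
  have hLpos : 0 < L := lt_of_lt_of_le hL₂ hL1
  have hMpos : 0 < M := lt_of_lt_of_le hL₁ hM1
  by_contra hcon
  push Not at hcon
  set e : ℝ := min η η' with he
  have hepos : 0 < e := lt_min hη hη'
  set K : ℝ := max L M with hKdef
  have hKL : L ≤ K := le_max_left _ _
  have hKM : M ≤ K := le_max_right _ _
  set m : ℝ := min L M with hmdef
  have hmL : m ≤ L := min_le_left _ _
  have hmM : m ≤ M := min_le_right _ _
  have hmpos : 0 < m := lt_min hLpos hMpos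
  set N : ℝ := 2 * (2 * α * K + 3 + s) / e with hN
  have hKpos : 0 < K := lt_of_lt_of_le hLpos hKL
  have hnum : 0 < 2 * α * K + 3 + s := by positivity
  have hNpos : 0 < N := by positivity
  have heN : e * N = 2 * (2 * α * K + 3 + s) := by
    rw [hN]; field_simp
  obtain ⟨A, hAc, hAN, hAI, hAv⟩ := exists_near T N 1 hNpos.le one_pos
  have hAv2 : α * N - 1 ≤ volume.real A := by linarith [hαL N hNpos]
  let S : ℝ → ℝ := fun c => volume.real (A ∩ Icc 0 c) + volume.real (A ∩ Icc s (s + c))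
  have hstep : ∀ c, S c ≤ (2 * α - 7 / 8 * e) * c →
      ∃ c', c + m ≤ c' ∧ c' ≤ c + K ∧ S c' ≤ (2 * α - 7 / 8 * e) * c' := by
    intro c hc
    by_cases hfc : (α - η') * L ≤ volume.real (A ∩ Icc c (c + L))
    · have hg := hcon A c hAc hAI hfc
      refine ⟨c + M, by linarith, by linarith, ?_⟩
      have h1 := Sel_union A 0 c M
      have h2 := Sel_union A s (s + c) M
      have h3 := Sel_win (c := c) hAc hAI hMpos.le (hu₁ M hM1)
      rw [show c + s + M = s + c + M by ring, show c + s = s + c by ring] at hg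
      have h4 : e * M ≤ η * M := mul_le_mul_of_nonneg_right (min_le_left _ _) hMpos.le
      simp only [S] at hc ⊢
      rw [show s + (c + M) = s + c + M by ring]
      nlinarith [h1, h2, h3, hg, hc, h4]
    · push Not at hfc
      refine ⟨c + L, by linarith, by linarith, ?_⟩
      have h1 := Sel_union A 0 c L
      have h2 := Sel_union A s (s + c) L
      have h3 := Sel_win (c := s + c) hAc hAI hLpos.le (hu₂ L hL1)
      have h4 : e * L ≤ η' * L := mul_le_mul_of_nonneg_right (min_le_right _ _) hLpos.le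
      simp only [S] at hc ⊢
      rw [show s + (c + L) = s + c + L by ring]
      nlinarith [h1, h2, h3, hfc, hc, h4]
  have h00 : S 0 ≤ 0 := by
    simp only [S, add_zero, Icc_self]
    have hz : ∀ x : ℝ, volume.real (A ∩ {x}) = 0 := by
      intro x
      have : volume (A ∩ {x}) = 0 := measure_mono_null inter_subset_right (by simp)
      simp [measureReal_def, this]
    rw [hz, hz]; simp
  obtain ⟨n, hn⟩ := exists_nat_ge (N / m)
  have hn2 : N ≤ n * m := by rwa [div_le_iff₀ hmpos] at hn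
  obtain ⟨c, hc1, hc2, hc3⟩ := Sel_greedy S (2 * α - 7 / 8 * e) m K hmpos h00 hstep hKpos.le n N hNpos.le hn2
  have hS1 : volume.real (A ∩ Icc 0 c) = volume.real A := by
    congr 1
    exact inter_eq_left.2 (hAN.trans (Icc_subset_Icc_right hc1))
  have hS2 : volume.real A ≤ volume.real (A ∩ Icc s (s + c)) + s := by
    have hsub : A ⊆ (A ∩ Icc s (s + c)) ∪ Icc 0 s := by
      intro x hx
      have hx2 := hAN hx
      rcases le_total x s with h | h
      · exact Or.inr ⟨hx2.1, h⟩
      · exact Or.inl ⟨hx, h, by linarith [hx2.2]⟩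
    have hfin : volume ((A ∩ Icc s (s + c)) ∪ Icc 0 s) ≠ ⊤ := by
      refine ne_top_of_le_ne_top ?_ (measure_union_le _ _)
      refine ENNReal.add_ne_top.2 ⟨?_, by rw [Real.volume_Icc]; exact ENNReal.ofReal_ne_top⟩
      exact ne_top_of_le_ne_top (by rw [Real.volume_Icc]; exact ENNReal.ofReal_ne_top)
        (measure_mono (inter_subset_right : A ∩ Icc s (s + c) ⊆ Icc s (s + c)))
    have h := (measureReal_mono hsub hfin).trans (measureReal_union_le _ _)
    rwa [Real.volume_real_Icc_of_le hs, sub_zero] at h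
  simp only [S] at hc3
  rw [hS1] at hc3
  have hac : α * c ≤ α * (N + K) := mul_le_mul_of_nonneg_left hc2 hα0
  have hec : e * N ≤ e * c := mul_le_mul_of_nonneg_left hc1 hepos.le
  nlinarith [hac, hec, hS2, hAv2, hc3, heN, hnum]

end Pool.Agent.LibLP64
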