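import Pool.Agent.LibLP64.F2
import Pool.Agent.LibLP64.S1
import Pool.Agent.LibLP64.P1
import Pool.Agent.LibLP64.Sel
import Pool.Agent.LibLP64.N1
import Pool.Agent.LibLP64.O1

/-! LP64 Fin (helper64). Assembly. -/

open MeasureTheory Set

namespace Pool.Agent.LibLP64

theorem half (T : Set ℝ) (hT : IsClosed T) (hP : P4 T) (ε : ℝ) (hε : 0 < ε) :
    ∃ M₀ : ℝ, 0 ≤ M₀ ∧ ∀ s : ℝ, 0 ≤ s → ∀ M : ℝ, M₀ ≤ M →
      (1 / 2 - ε) * M ≤ volume.real (T ∩ Icc s (s + M)) := by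
  by_cases hall : ∀ x : ℝ, 0 < x → x ∈ T
  · refine ⟨0, le_refl _, fun s hs M hM => ?_⟩
    have hsub : Ioc s (s + M) ⊆ T ∩ Icc s (s + M) := by
      intro y hy
      exact ⟨hall y (lt_of_le_of_lt hs hy.1), hy.1.le, hy.2⟩
    have hfin : volume (T ∩ Icc s (s + M)) ≠ ⊤ :=
      measure_ne_top_of_subset inter_subset_right isCompact_Icc.measure_lt_top.ne
    have h1 : volume.real (Ioc s (s + M)) ≤ volume.real (T ∩ Icc s (s + M)) :=
      measureReal_mono hsub hfin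
    rw [Real.volume_real_Ioc_of_le (by linarith)] at h1
    nlinarith
  · push Not at hall
    obtain ⟨x₀, hx0, hx0T⟩ := hall
    have hopen : IsOpen Tᶜ := hT.isOpen_compl
    obtain ⟨δ, hδ, hball⟩ := Metric.isOpen_iff.1 hopen x₀ hx0T
    set δ' := min δ x₀ with hδ'
    have hδ'0 : 0 < δ' := lt_min hδ hx0
    have hδ'1 : δ' ≤ δ := min_le_left _ _
    have hδ'2 : δ' ≤ x₀ := min_le_right _ _
    have hgap : ∀ x, x₀ - δ' < x → x < x₀ + δ' → x ∉ T := by
      intro x h1 h2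
      apply hball
      rw [Metric.mem_ball, Real.dist_eq, abs_lt]
      constructor <;> linarith
    obtain ⟨α, hα⟩ := exists_opt T
    rcases hα.1.eq_or_lt with h0 | hpos
    · -- `α = 0`
      obtain ⟨L₀, hL₀, hL⟩ := hα.2.2 ε hε
      refine ⟨max L₀ (2 * x₀ / ε), le_max_of_le_left hL₀.le, fun s hs M hM => ?_⟩
      have hM1 : L₀ ≤ M := le_trans (le_max_left _ _) hM
      have hM2 : 2 * x₀ / ε ≤ M := le_trans (le_max_right _ _) hM
      have hM0 : 0 ≤ M := hL₀.le.trans hM1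
      have h1 := common_nbhd T hT hP x₀ x₀ s M hx0 hx0T le_rfl hs hM0
      have h2 := hL M hM1
      have h3 : 0 ≤ volume.real ({p | p ∈ T ∧ p - x₀ ∈ T} ∩ (Icc s (s + M) ∩ Ioi x₀)) :=
        measureReal_nonneg
      rw [div_le_iff₀ hε] at hM2
      rw [← h0] at h2
      nlinarith
    · -- `α > 0`
      obtain ⟨κ₀, M₁, hκ₀, hM₁, hfat⟩ := fat_window T hT α hα (ε / 4) (by positivity)
      set κ := min κ₀ (2 * δ') with hκ
      have hκ0 : 0 < κ := lt_min hκ₀ (by positivity)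
      have hκ1 : κ ≤ κ₀ := min_le_left _ _
      have hκ2 : κ ≤ 2 * δ' := min_le_right _ _
      obtain ⟨η', L₂, hη', hL₂, hpair⟩ := pairs T α hα hpos (x₀ - δ') (x₀ + δ') κ (by linarith)
        hgap hκ0 (by linarith)
      obtain ⟨M₂, hM₂, hsel⟩ := select T α hα (ε / 4) η' (by positivity) hη'
      obtain ⟨L₀, hL₀, hopt⟩ := hα.2.2 (ε / 4) (by positivity)
      set L := max L₂ M₂ with hLdef
      have hLL₂ : L₂ ≤ L := le_max_left _ _
      have hLM₂ : M₂ ≤ L := le_max_right _ _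
      have hL0 : 0 < L := lt_of_lt_of_le hL₂ hLL₂
      set C := 4 * L + 6 * κ + 1 with hC
      refine ⟨max (max M₁ M₂) (max L₀ (C / ε)), le_max_of_le_left (le_max_of_le_left hM₁.le),
        fun s hs M hM => ?_⟩
      have hMa : M₁ ≤ M := le_trans (le_trans (le_max_left _ _) (le_max_left _ _)) hM
      have hMb : M₂ ≤ M := le_trans (le_trans (le_max_right _ _) (le_max_left _ _)) hM
      have hMc : L₀ ≤ M := le_trans (le_trans (le_max_left _ _) (le_max_right _ _)) hM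
      have hMd : C / ε ≤ M := le_trans (le_trans (le_max_right _ _) (le_max_right _ _)) hM
      have hM0 : 0 ≤ M := hM₁.le.trans hMa
      obtain ⟨A, c, hA, hI, hAL, hAM⟩ := hsel s L M hs hLM₂ hMb
      obtain ⟨a, ha, b, hb, hab, θ, hθ, hx, hxT⟩ := hpair L hLL₂ (A ∩ Icc c (c + L)) c
        (hA.inter isCompact_Icc) inter_subset_right (hI.mono inter_subset_left) hAL
      have hθ' := abs_le.1 hθ
      have hxX : b - a + θ ≤ L + κ := by
        have h1 := hb.2.2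
        have h2 := ha.2.1
        linarith [hθ'.2]
      have h1 := shift_bound A hA κ θ hθ (c + s) M hM0
      have h2 := hfat κ hκ0.le hκ1 A hA hI (c + s) M hMa
      have h3 := overlap T hT A hA hI c L κ s M θ a b hL0.le hκ0.le hs hM0 ha.1 hb.1 hab ha.2.1 hb.2.2
        hθ hx
      have h4 := common_nbhd T hT hP (b - a + θ) (L + κ) s M hx hxT hxX hs hM0
      have h5 := hopt M hMc
      rw [div_le_iff₀ hε] at hMd
      nlinarith

/-- the form used in the hand-in -/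
theorem main (T : Set ℝ) (hT : IsClosed T) (hP : ∀ t : Fin 4 → ℝ, StrictMono t → ∃ i j, i < j ∧ t j - t i ∈ T) :
    ∀ ε : ℝ, 0 < ε → ∃ M₀ : ℝ, ∀ s : ℝ, 0 ≤ s → ∀ M : ℝ, M₀ ≤ M →
      ENNReal.ofReal ((1 / 2 - ε) * M) ≤ volume (T ∩ Icc s (s + M)) := by
  intro ε hε
  obtain ⟨M₀, -, h⟩ := half T hT hP ε hε
  refine ⟨M₀, fun s hs M hM => ?_⟩
  have hfin : volume (T ∩ Icc s (s + M)) ≠ ⊤ :=
    measure_ne_top_of_subset inter_subset_right isCompact_Icc.measure_lt_top.ne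
  exact (ENNReal.ofReal_le_iff_le_toReal hfin).2 (h s hs M hM)

end Pool.Agent.LibLP64
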