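import Pool.Agent.LibLP64.Defs

/-! LP64 G0 (SHORT/MEDIUM). A hole after every point. `(x₁, x₂)` is disjoint from `T`, `κ ≤ x₂ - x₁`. Put
`g = sSup (A ∩ [a, a + x₁]) ∈ A` (compact, nonempty); `Ioo g (g + κ) ⊆ (fat A κ \ A) ∩ Ioc a (a + x₂)`, because `A` has no
point in `(g, a + x₁]` (choice of `g`) and none in `(a + x₁, a + x₂)` (`b - a ∈ T` for `b ∈ A`, `b > a`), `g + κ ≤ a + x₂`. -/

open MeasureTheory Set

namespace Pool.Agent.LibLP64

theorem hole (T A : Set ℝ) (hA : IsCompact A) (hI : Ind T A) (x₁ x₂ κ : ℝ) (h1 : 0 ≤ x₁)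
    (hgap : ∀ x, x₁ < x → x < x₂ → x ∉ T) (hκ : 0 < κ) (hκ2 : κ ≤ x₂ - x₁) (a : ℝ) (ha : a ∈ A) :
    κ ≤ volume.real ((fat A κ \ A) ∩ Ioc a (a + x₂)) := by
  have hK : IsCompact (A ∩ Icc a (a + x₁)) := hA.inter_right isClosed_Icc
  have hne : (A ∩ Icc a (a + x₁)).Nonempty := ⟨a, ha, le_rfl, by linarith⟩
  obtain ⟨g, hg⟩ : ∃ g, g = sSup (A ∩ Icc a (a + x₁)) := ⟨_, rfl⟩
  have hgm : g ∈ A ∩ Icc a (a + x₁) := by
    rw [hg]
    exact hK.sSup_mem hne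
  have hgA : g ∈ A := hgm.1
  have hg1 : a ≤ g := hgm.2.1
  have hg2 : g ≤ a + x₁ := hgm.2.2
  have hle : ∀ y ∈ A ∩ Icc a (a + x₁), y ≤ g := by
    intro y hy
    rw [hg]
    exact le_csSup hK.bddAbove hy
  have hsub : Ioo g (g + κ) ⊆ (fat A κ \ A) ∩ Ioc a (a + x₂) := by
    intro y hy
    have hy1 : g < y := hy.1
    have hy2 : y < g + κ := hy.2
    refine ⟨⟨⟨g, hgA, hy1.le, hy2.le⟩, ?_⟩, lt_of_le_of_lt hg1 hy1, by linarith⟩
    intro hyA
    by_cases hc : y ≤ a + x₁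
    · exact absurd (hle y ⟨hyA, by linarith, hc⟩) (not_le.2 hy1)
    · push Not at hc
      exact hgap (y - a) (by linarith) (by linarith) (hI a ha y hyA (by linarith))
  have hfin : volume ((fat A κ \ A) ∩ Ioc a (a + x₂)) ≠ ⊤ :=
    ne_top_of_le_ne_top (by rw [Real.volume_Ioc]; exact ENNReal.ofReal_ne_top)
      (measure_mono inter_subset_right)
  have h1 : volume.real (Ioo g (g + κ)) ≤ volume.real ((fat A κ \ A) ∩ Ioc a (a + x₂)) :=
    measureReal_mono hsub hfin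
  have h2 : volume.real (Ioo g (g + κ)) = κ := by
    rw [Real.volume_real_Ioo_of_le (by linarith)]
    ring
  rw [h2] at h1
  exact h1

end Pool.Agent.LibLP64
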